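import Pool.Agent.H17.BO.TargetsD
import Pool.Agent.H27.LV.Targets2

/-!
# HTA: heights of sums, products and inverses
-/

set_option autoImplicit false

namespace Pool.Agent.H95.BO

open MvPolynomial SC Pool.Agent.H27.LV Pool.Agent.H17.VG Pool.Agent.H17.BO

namespace HTA

variable {k K : Type} [Field k] [Field K] [Algebra k K]

private theorem poleOrder_one (v : DV k K) (z : K) :
    poleOrder v (fun _ : Fin 1 => z) = (-(v.ord z)).toNat := by
  unfold poleOrder
  simp

private theorem deg_eq {ι : Type} [Fintype ι] (u : ι → K) (S : Finset (DV k K))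
    (hS : ∀ i v, v.ord (u i) ≠ 0 → v ∈ S) : Pool.Agent.H27.LV.deg k u = ∑ v ∈ S, poleOrder v u := by
  unfold Pool.Agent.H27.LV.deg
  refine finsum_eq_sum_of_support_subset _ ?_
  intro v hv
  rw [Function.mem_support] at hv
  by_contra h
  apply hv
  unfold poleOrder
  refine (Finset.sup_eq_bot_iff _ _).2 fun i _ => ?_
  have h1 : v.ord (u i) = 0 := by
    by_contra h2
    exact h (hS i v h2)
  rw [h1]
  rfl

private theorem h1_eq (z : K) (S : Finset (DV k K)) (hS : ∀ v, v.ord z ≠ 0 → v ∈ S) :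
    h1 k z = ∑ v ∈ S, (-(v.ord z)).toNat := by
  unfold h1
  rw [deg_eq (fun _ : Fin 1 => z) S (fun _ v hv => hS v hv)]
  exact Finset.sum_congr rfl fun v _ => poleOrder_one v z

end HTA

open HTA in
/-- HTA: heights of sums, products and inverses -/
theorem pf_HTA (hPFM : T_PFM) : T_HTA := by
  intro k K _ _ _ _ _ _ htr z w
  classical
  have hfin : ∀ f : K, {v : DV k K | v.ord f ≠ 0}.Finite := fun f => (hPFM k K htr f).1
  refine ⟨?_, ?_, ?_, ?_, ?_⟩
  · obtain ⟨S, hS⟩ : ∃ S : Finset (DV k K), S = (hfin z).toFinset ∪ (hfin w).toFinset ∪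
      (hfin (z + w)).toFinset := ⟨_, rfl⟩
    rw [h1_eq z S (fun v hv => by rw [hS]; simp [hv]), h1_eq w S (fun v hv => by rw [hS]; simp [hv]),
      h1_eq (z + w) S (fun v hv => by rw [hS]; simp [hv]), ← Finset.sum_add_distrib]
    refine Finset.sum_le_sum fun v _ => ?_
    by_cases hz : z = 0
    · rw [hz, zero_add]
      omega
    by_cases hw : w = 0
    · rw [hw, add_zero]
      omega
    by_cases hzw : z + w = 0
    · rw [hzw, v.ord_zero]
      simp
    have h2 := v.ord_add z w hz hw hzw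
    omega
  · obtain ⟨S, hS⟩ : ∃ S : Finset (DV k K), S = (hfin z).toFinset ∪ (hfin w).toFinset ∪
      (hfin (z * w)).toFinset := ⟨_, rfl⟩
    rw [h1_eq z S (fun v hv => by rw [hS]; simp [hv]), h1_eq w S (fun v hv => by rw [hS]; simp [hv]),
      h1_eq (z * w) S (fun v hv => by rw [hS]; simp [hv]), ← Finset.sum_add_distrib]
    refine Finset.sum_le_sum fun v _ => ?_
    by_cases hz : z = 0
    · rw [hz, zero_mul, v.ord_zero]
      simp
    by_cases hw : w = 0
    · rw [hw, mul_zero, v.ord_zero]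
      simp
    rw [v.ord_mul z w hz hw]
    omega
  · obtain ⟨S, hS⟩ : ∃ S : Finset (DV k K), S = (hfin z).toFinset := ⟨_, rfl⟩
    have hS1 : ∀ v : DV k K, v.ord z ≠ 0 → v ∈ S := fun v hv => by rw [hS]; simp [hv]
    have hS2 : ∀ v : DV k K, v.ord z⁻¹ ≠ 0 → v ∈ S := fun v hv => by
      refine hS1 v fun h2 => hv ?_
      rw [v.ord_inv, h2, neg_zero]
    rw [h1_eq z S hS1, h1_eq z⁻¹ S hS2]
    have h3 := (hPFM k K htr z).2
    rw [finsum_eq_sum_of_support_subset (s := S) _ (fun v hv => hS1 v hv)] at h3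
    have h4 : ((∑ v ∈ S, (-(v.ord z⁻¹)).toNat : ℕ) : ℤ) - ((∑ v ∈ S, (-(v.ord z)).toNat : ℕ) : ℤ) =
        ∑ v ∈ S, v.ord z := by
      push_cast
      rw [← Finset.sum_sub_distrib]
      refine Finset.sum_congr rfl fun v _ => ?_
      rw [v.ord_inv]
      omega
    rw [h3] at h4
    omega
  · intro a
    rw [h1_eq _ ∅ (fun v hv => absurd (v.ord_base a) hv)]
    simp
  · intro ι _ u
    obtain ⟨S, hS⟩ : ∃ S : Finset (DV k K), S = Finset.univ.biUnion fun i : ι =>
      (hfin (u i)).toFinset := ⟨_, rfl⟩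
    have hS1 : ∀ i v, v.ord (u i) ≠ 0 → v ∈ S := fun i v hv => by
      rw [hS]
      simp only [Finset.mem_biUnion, Finset.mem_univ, true_and, Set.Finite.mem_toFinset]
      exact ⟨i, hv⟩
    rw [deg_eq u S hS1]
    refine ⟨fun i => ?_, ?_⟩
    · rw [h1_eq (u i) S (hS1 i)]
      refine Finset.sum_le_sum fun v _ => ?_
      unfold poleOrder
      exact Finset.le_sup (f := fun i => (-(v.ord (u i))).toNat) (Finset.mem_univ i)
    · rw [Finset.sum_congr rfl fun i _ => h1_eq (u i) S (hS1 i), Finset.sum_comm]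
      refine Finset.sum_le_sum fun v _ => ?_
      unfold poleOrder
      refine Finset.sup_le fun i _ => ?_
      exact Finset.single_le_sum (f := fun i => (-(v.ord (u i))).toNat) (fun _ _ => Nat.zero_le _)
        (Finset.mem_univ i)

end Pool.Agent.H95.BO
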