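import Pool.Agent.H17.BO.TargetsE
import Pool.Agent.H64.SC.Api

/-!
# UNT: coordinates with respect to three points of a conic are units
-/

set_option autoImplicit false

namespace Pool.Agent.H95.BO

open MvPolynomial SC Pool.Agent.H27.LV Pool.Agent.H17.VG Pool.Agent.H17.BO

namespace UNT

/-- a form at a multiple of a point -/
private theorem eval_mul_pt {κ : Type} [CommRing κ] {d : ℕ} {G : MvPolynomial (Fin 3) κ}
    (hG : G.IsHomogeneous d) (c : κ) (y : Fin 3 → κ) :
    eval (fun a => c * y a) G = c ^ d * eval y G := by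
  rw [eval_eq, eval_eq, Finset.mul_sum]
  refine Finset.sum_congr rfl fun m hm => ?_
  have h1 : ∑ i ∈ m.support, m i = d := by
    have h2 := hG (mem_support_iff.1 hm)
    rw [← h2, Finsupp.weight_apply, Finsupp.sum]
    simp
  rw [Finset.prod_congr rfl fun i _ => mul_pow c (y i) (m i), Finset.prod_mul_distrib,
    Finset.prod_pow_eq_pow_sum, h1]
  ring

/-- the argument over a field -/
private theorem fld {κ : Type} [Field κ] (y : Fin 3 → Fin 3 → κ) {G : MvPolynomial (Fin 3) κ}
    {d : ℕ} (hG : G.IsHomogeneous d) (x α : Fin 3 → κ) (hx : ∀ a, x a = ∑ j, α j * y j a)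
    (b : Fin 3 → Fin 3 → κ) (hb : ∀ i j, i ≠ j → b i j ≠ 0)
    (h : α 0 * α 1 * b 0 1 + α 0 * α 2 * b 0 2 + α 1 * α 2 * b 1 2 = 0)
    (hy : ∀ j, eval (y j) G = 0) (hGx : eval x G ≠ 0) : ∀ j, α j ≠ 0 := by
  have key : ∀ i j l : Fin 3, (∀ t, t = i ∨ t = j ∨ t = l) → α i = 0 → α j = 0 → i ≠ j → l ≠ i →
      l ≠ j → False := by
    intro i j l hc hi hj h1 h2 h3
    apply hGx
    have h4 : x = fun a => α l * y l a := by
      funext a
      rw [hx a, Finset.sum_eq_single l]
      · intro t _ ht
        rcases hc t with h5 | h5 | h5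
        · rw [h5, hi, zero_mul]
        · rw [h5, hj, zero_mul]
        · exact absurd h5 ht
      · intro h5
        exact absurd (Finset.mem_univ l) h5
    rw [h4, eval_mul_pt hG, hy l, mul_zero]
  have h01 := hb 0 1 (by decide)
  have h02 := hb 0 2 (by decide)
  have h12 := hb 1 2 (by decide)
  intro j hj
  fin_cases j
  · have h0 : α 0 = 0 := hj
    rw [h0] at h
    simp only [zero_mul, zero_add, mul_eq_zero] at h
    rcases h with (h5 | h5) | h5
    · exact key 0 1 2 (by decide) h0 h5 (by decide) (by decide) (by decide)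
    · exact key 0 2 1 (by decide) h0 h5 (by decide) (by decide) (by decide)
    · exact h12 h5
  · have h0 : α 1 = 0 := hj
    rw [h0] at h
    simp only [mul_zero, zero_mul, zero_add, add_zero, mul_eq_zero] at h
    rcases h with (h5 | h5) | h5
    · exact key 1 0 2 (by decide) h0 h5 (by decide) (by decide) (by decide)
    · exact key 1 2 0 (by decide) h0 h5 (by decide) (by decide) (by decide)
    · exact h02 h5
  · have h0 : α 2 = 0 := hj
    rw [h0] at h
    simp only [mul_zero, zero_mul, add_zero, mul_eq_zero] at h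
    rcases h with (h5 | h5) | h5
    · exact key 2 0 1 (by decide) h0 h5 (by decide) (by decide) (by decide)
    · exact key 2 1 0 (by decide) h0 h5 (by decide) (by decide) (by decide)
    · exact h01 h5

/-- the bilinear form over a ring -/
private def bl {R : Type} [CommRing R] (q : Matrix (Fin 3) (Fin 3) R) (u v : Fin 3 → R) : R :=
  ∑ a, ∑ b, q a b * u a * v b

private theorem bl_symm {R : Type} [CommRing R] {q : Matrix (Fin 3) (Fin 3) R} (hq : q.IsSymm)
    (u v : Fin 3 → R) : bl q u v = bl q v u := by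
  unfold bl
  rw [Finset.sum_comm]
  refine Finset.sum_congr rfl fun a _ => Finset.sum_congr rfl fun b _ => ?_
  rw [← hq.apply b a]
  ring

private theorem gram {R : Type} [CommRing R] {q : Matrix (Fin 3) (Fin 3) R} (hq : q.IsSymm)
    (y : Fin 3 → Fin 3 → R) (h0 : ∀ j, bl q (y j) (y j) = 0) :
    2 * (bl q (y 0) (y 1) * bl q (y 0) (y 2) * bl q (y 1) (y 2)) =
      (Matrix.of y).det ^ 2 * q.det := by
  have h1 : (Matrix.of y) * q * (Matrix.of y).transpose =
      Matrix.of fun i j => bl q (y i) (y j) := by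
    ext i j
    simp only [Matrix.mul_apply, Matrix.transpose_apply, Matrix.of_apply, bl]
    rw [Finset.sum_comm]
    refine Finset.sum_congr rfl fun a _ => ?_
    rw [Finset.sum_mul]
    refine Finset.sum_congr rfl fun b _ => ?_
    ring
  have h2 := congrArg Matrix.det h1
  rw [Matrix.det_mul, Matrix.det_mul, Matrix.det_transpose] at h2
  have h3 := Matrix.det_fin_three (Matrix.of fun i j => bl q (y i) (y j))
  simp only [Matrix.of_apply] at h3
  rw [h0 0, h0 1, h0 2, bl_symm hq (y 1) (y 0), bl_symm hq (y 2) (y 0),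
    bl_symm hq (y 2) (y 1)] at h3
  linear_combination (-1 : R) * h2 - h3

private theorem expand {R : Type} [CommRing R] {q : Matrix (Fin 3) (Fin 3) R} (hq : q.IsSymm)
    (y : Fin 3 → Fin 3 → R) (α : Fin 3 → R) (h0 : ∀ j, bl q (y j) (y j) = 0) :
    bl q (fun a => ∑ j, α j * y j a) (fun a => ∑ j, α j * y j a) =
      2 * (α 0 * α 1 * bl q (y 0) (y 1) + α 0 * α 2 * bl q (y 0) (y 2) +
        α 1 * α 2 * bl q (y 1) (y 2)) := by
  have h1 : bl q (fun a => ∑ j, α j * y j a) (fun a => ∑ j, α j * y j a) =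
      ∑ i, ∑ j, α i * α j * bl q (y i) (y j) := by
    unfold bl
    simp only [Fin.sum_univ_three]
    ring
  rw [h1]
  simp only [Fin.sum_univ_three]
  rw [h0 0, h0 1, h0 2, bl_symm hq (y 1) (y 0), bl_symm hq (y 2) (y 0), bl_symm hq (y 2) (y 1)]
  ring

private theorem map_ev {R S : Type} [CommRing R] [CommRing S] (φ : R →+* S)
    (p : MvPolynomial (Fin 3) R) (u : Fin 3 → R) :
    φ (eval u p) = eval (fun i => φ (u i)) (MvPolynomial.map φ p) := by
  rw [eval_map, eval₂_eq, eval_eq, map_sum]
  refine Finset.sum_congr rfl fun m _ => ?_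
  rw [map_mul, map_prod]
  simp only [map_pow]

end UNT

open UNT in
/-- UNT: coordinates with respect to three points of a conic are units -/
theorem pf_UNT : T_UNT := by
  intro k L _ _ _ _ w y q d G x _ hG hGc hy hdy hdy0 hq hqs hdq hdq0 hby hGy hx hbx hGx hGx0
  have hge : ∀ z : L, ge w 0 z → 0 ≤ w.ord z := by
    rintro z (h | h)
    · rw [h, w.ord_zero]
    · exact h
  obtain ⟨y', hy'⟩ : ∃ y' : Fin 3 → Fin 3 → w.vs, ∀ i j, (y' i j : L) = y i j :=
    ⟨fun i j => ⟨y i j, hge _ (hy i j)⟩, fun _ _ => rfl⟩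
  obtain ⟨q', hq'⟩ : ∃ q' : Matrix (Fin 3) (Fin 3) w.vs, ∀ i j, (q' i j : L) = q i j :=
    ⟨fun i j => ⟨q i j, hge _ (hq i j)⟩, fun _ _ => rfl⟩
  obtain ⟨x', hx'⟩ : ∃ x' : Fin 3 → w.vs, ∀ i, (x' i : L) = x i :=
    ⟨fun i => ⟨x i, hge _ (hx i)⟩, fun _ => rfl⟩
  obtain ⟨G', hG', hG'c⟩ := DV.exists_lift_poly w G (fun m => hge _ (hGc m))
  have hinj : Function.Injective (w.vs.subtype) := Subtype.val_injective
  have hι : ∀ z : w.vs, w.vs.subtype z = (z : L) := fun _ => rfl
  -- compatibility
  have hbl : ∀ u' v' : Fin 3 → w.vs, ((bl q' u' v' : w.vs) : L) =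
      bil q (fun i => (u' i : L)) (fun i => (v' i : L)) := by
    intro u' v'
    unfold bl bil
    rw [← hι, map_sum]
    refine Finset.sum_congr rfl fun a _ => ?_
    rw [map_sum]
    refine Finset.sum_congr rfl fun b _ => ?_
    rw [map_mul, map_mul, hι, hι, hι, hq']
  have hyy : ∀ j, (fun i => (y' j i : L)) = y j := fun j => funext fun i => hy' j i
  have hxx : (fun i => (x' i : L)) = x := funext hx'
  have hdY : ((Matrix.of y').det : w.vs) = (Matrix.of y).det := by
    rw [← hι, RingHom.map_det]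
    congr 1
    ext i j
    exact hy' i j
  have hdQ : ((q'.det : w.vs) : L) = q.det := by
    rw [← hι, RingHom.map_det]
    congr 1
    ext i j
    exact hq' i j
  have huY : IsUnit (Matrix.of y').det := by
    rw [w.isUnit_vs_iff, hdY]
    exact ⟨hdy, hdy0⟩
  have huQ : IsUnit q'.det := by
    rw [w.isUnit_vs_iff, hdQ]
    exact ⟨hdq, hdq0⟩
  have hqs' : q'.IsSymm := by
    ext i j
    rw [Matrix.transpose_apply, hq', hq']
    exact hqs.apply i j
  have h0 : ∀ j, bl q' (y' j) (y' j) = 0 := by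
    intro j
    apply Subtype.val_injective
    rw [hbl, hyy, hby]
    rfl
  have hgr := gram hqs' y' h0
  have hub : IsUnit (bl q' (y' 0) (y' 1)) ∧ IsUnit (bl q' (y' 0) (y' 2)) ∧
      IsUnit (bl q' (y' 1) (y' 2)) := by
    have h1 : IsUnit (2 * (bl q' (y' 0) (y' 1) * bl q' (y' 0) (y' 2) * bl q' (y' 1) (y' 2))) := by
      rw [hgr]
      exact (huY.pow 2).mul huQ
    have h2 := isUnit_of_mul_isUnit_right h1
    have h3 := isUnit_of_mul_isUnit_left h2
    exact ⟨isUnit_of_mul_isUnit_left h3, isUnit_of_mul_isUnit_right h3,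
      isUnit_of_mul_isUnit_right h2⟩
  have hub' : ∀ i j : Fin 3, i ≠ j → IsUnit (bl q' (y' i) (y' j)) := by
    obtain ⟨h1, h2, h3⟩ := hub
    intro i j hij
    fin_cases i <;> fin_cases j
    · exact absurd rfl hij
    · exact h1
    · exact h2
    · rw [bl_symm hqs']
      exact h1
    · exact absurd rfl hij
    · exact h3
    · rw [bl_symm hqs']
      exact h2
    · rw [bl_symm hqs']
      exact h3
    · exact absurd rfl hij
  refine ⟨fun i j hij => ?_, ?_⟩
  · have h1 := (w.isUnit_vs_iff).1 (hub' i j hij)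
    rw [hbl, hyy, hyy] at h1
    exact h1
  · -- the coordinates
    obtain ⟨α, hα⟩ : ∃ α : Fin 3 → w.vs, α = Matrix.vecMul x' (Matrix.of y')⁻¹ := ⟨_, rfl⟩
    have hxα : ∀ a, x' a = ∑ j, α j * y' j a := by
      intro a
      have h1 : Matrix.vecMul α (Matrix.of y') = x' := by
        rw [hα, Matrix.vecMul_vecMul, Matrix.nonsing_inv_mul _ huY, Matrix.vecMul_one]
      rw [← h1]
      rfl
    have hrel : α 0 * α 1 * bl q' (y' 0) (y' 1) + α 0 * α 2 * bl q' (y' 0) (y' 2) +
        α 1 * α 2 * bl q' (y' 1) (y' 2) = 0 := by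
      have h1 : bl q' x' x' = 0 := by
        apply Subtype.val_injective
        rw [hbl, hxx, hbx]
        rfl
      have h2 := expand hqs' y' α h0
      have h3 : x' = fun a => ∑ j, α j * y' j a := funext hxα
      rw [← h3, h1] at h2
      have h4 : (2 : w.vs) ≠ 0 := by
        intro h5
        have h6 : ((2 : w.vs) : L) = 0 := by
          rw [h5]
          rfl
        have h7 : ((2 : w.vs) : L) = algebraMap k L 2 := by
          rw [map_ofNat]
          rfl
        rw [h7, map_eq_zero] at h6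
        exact two_ne_zero h6
      exact (mul_eq_zero.1 h2.symm).resolve_left h4
    obtain ⟨ρ, hρ⟩ : ∃ ρ : w.vs →+* w.Res, ρ = IsLocalRing.residue w.vs := ⟨_, rfl⟩
    have hρu : ∀ z : w.vs, ρ z ≠ 0 ↔ IsUnit z := fun z => by
      rw [hρ]
      exact IsLocalRing.residue_ne_zero_iff_isUnit z
    have hev : ∀ u' : Fin 3 → w.vs, ((eval u' G' : w.vs) : L) =
        eval (fun i => (u' i : L)) G := by
      intro u'
      rw [← hι, map_ev, hG']
      rfl
    have hG'h : G'.IsHomogeneous d := by
      intro m hm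
      refine hG ?_
      rw [← hG'c]
      intro h1
      exact hm (Subtype.val_injective h1)
    have hfin := fld (fun i j => ρ (y' i j)) (hG'h.map ρ) (fun i => ρ (x' i)) (fun i => ρ (α i))
      (fun a => by rw [hxα a, map_sum]; simp only [map_mul])
      (fun i j => ρ (bl q' (y' i) (y' j))) (fun i j hij => (hρu _).2 (hub' i j hij))
      (by rw [← map_mul, ← map_mul, ← map_mul, ← map_mul, ← map_mul, ← map_mul, ← map_add,
            ← map_add, hrel, map_zero])
      (fun j => by
        rw [← map_ev]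
        have h1 : eval (y' j) G' = 0 := by
          apply Subtype.val_injective
          rw [hev, hyy, hGy]
          rfl
        rw [h1, map_zero])
      (by
        rw [← map_ev, hρu, w.isUnit_vs_iff, hev, hxx]
        exact ⟨hGx, hGx0⟩)
    refine ⟨fun j => (α j : L), fun a => ?_, fun j => ?_⟩
    · rw [← hx' a, hxα a, ← hι, map_sum]
      refine Finset.sum_congr rfl fun j _ => ?_
      rw [map_mul, hι, hι, hy']
    · exact (w.isUnit_vs_iff).1 ((hρu _).1 (hfin j))

end Pool.Agent.H95.BO
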